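import Mathlib
import Pool.Agent.Results.MP_696765_co.IrreducibleUnbounded

set_option autoImplicit false

/-!
# Cayley graphs of irreducible generating sets are no lonely colour graphs
-/

namespace Pool.Agent.N464.NLC

open Pool.Agent.Results.MP_696765_co.IrreducibleUnbounded

variable {G : Type} [Group G] {H : Set G}

/-- `h` is a generator labelling the unordered pair `e`. -/
def Labels (h : G) (e : Sym2 G) : Prop := ∃ g : G, e = s(g, h * g)

theorem labels_of_adj {a b : G} (h : (CayleyGraph H).Adj a b) :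
    ∃ x ∈ H, Labels x s(a, b) := by
  obtain ⟨-, x, hx, h1 | h1⟩ := h
  · exact ⟨x, hx, a, by rw [h1]⟩
  · exact ⟨x, hx, b, by rw [h1]; exact Sym2.eq_swap⟩

/-- If `x` labels `s(a, b)` then `b` is `x a` or `x⁻¹ a`. -/
theorem labels_iff {x a b : G} : Labels x s(a, b) ↔ b = x * a ∨ b = x⁻¹ * a := by
  constructor
  · rintro ⟨g, hg⟩
    rw [Sym2.eq_iff] at hg
    rcases hg with ⟨h1, h2⟩ | ⟨h1, h2⟩
    · left; rw [h2, h1]
    · right; rw [h1, h2]; group
  · rintro (h | h)
    · exact ⟨a, by rw [h]⟩
    · refine ⟨b, ?_⟩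
      rw [h]
      have : x * (x⁻¹ * a) = a := by group
      rw [this]
      exact Sym2.eq_swap

theorem closure_ne {x : G} (hH : IsIrreducibleGeneratingSet H) (hx : x ∈ H) :
    x ∉ Subgroup.closure (H \ {x}) := by
  intro h
  apply hH.2 x hx
  rw [eq_top_iff, ← hH.1, Subgroup.closure_le]
  intro y hy
  by_cases hyx : y = x
  · rw [hyx]; exact h
  · exact Subgroup.subset_closure ⟨hy, hyx⟩

/-- The label of an edge is unique. -/
theorem labels_unique (hH : IsIrreducibleGeneratingSet H) {x y : G} (hx : x ∈ H) (hy : y ∈ H)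
    {e : Sym2 G} (h1 : Labels x e) (h2 : Labels y e) : x = y := by
  induction e using Sym2.ind with
  | _ a b =>
    rw [labels_iff] at h1 h2
    by_contra hne
    have key : ∀ {p q : G}, p ∈ H → q ∈ H → p ≠ q → p = q⁻¹ → False := by
      intro p q hp hq hpq h
      apply closure_ne hH hp
      rw [h]
      apply Subgroup.inv_mem
      have : q ∈ H \ {p} := ⟨hq, fun h' => hpq h'.symm⟩
      rw [h] at this
      exact Subgroup.subset_closure this
    rcases h1 with h1 | h1 <;> rcases h2 with h2 | h2
    · exact hne (mul_right_cancel (h1.symm.trans h2))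
    · exact key hx hy hne (mul_right_cancel (h1.symm.trans h2))
    · exact key hy hx (Ne.symm hne) (mul_right_cancel (h2.symm.trans h1))
    · exact hne (inv_injective (mul_right_cancel (h1.symm.trans h2)))

/-- The colour of a pair: the label if there is one. -/
noncomputable def colour (H : Set G) (e : Sym2 G) : G := by
  classical
  exact if h : ∃ x ∈ H, Labels x e then h.choose else 1

theorem colour_spec {e : Sym2 G} (he : e ∈ (CayleyGraph H).edgeSet) :
    colour H e ∈ H ∧ Labels (colour H e) e := by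
  have h : ∃ x ∈ H, Labels x e := by
    induction e using Sym2.ind with
    | _ a b => exact labels_of_adj he
  unfold colour
  rw [dif_pos h]
  exact h.choose_spec

theorem atMostTwo (v c : G) :
    {e | e ∈ (CayleyGraph H).edgeSet ∧ v ∈ e ∧ colour H e = c}.encard ≤ 2 := by
  have hsub : {e | e ∈ (CayleyGraph H).edgeSet ∧ v ∈ e ∧ colour H e = c} ⊆
      ({s(v, c * v), s(v, c⁻¹ * v)} : Set (Sym2 G)) := by
    rintro e ⟨he, hv, hc⟩
    obtain ⟨w, rfl⟩ := hv
    have h := (colour_spec he).2
    rw [hc, labels_iff] at h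
    rcases h with h | h
    · left; rw [h]
    · right; rw [h]; rfl
  refine (Set.encard_le_encard hsub).trans ?_
  refine (Set.encard_insert_le _ _).trans ?_
  rw [Set.encard_singleton]
  norm_num

theorem walk_coset (x : G) {a b : G}
    {X : SimpleGraph G} (p : X.Walk a b)
    (hp : ∀ e ∈ p.edges, e ∈ (CayleyGraph H).edgeSet ∧ colour H e ≠ x) :
    b * a⁻¹ ∈ Subgroup.closure (H \ {x}) := by
  induction p with
  | nil => rw [mul_inv_cancel]; exact Subgroup.one_mem _
  | @cons u v w h p ih =>
    have h1 := hp s(u, v) (by simp)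
    have h2 := ih (fun e he => hp e (by simp [he]))
    obtain ⟨h3, h4⟩ := colour_spec h1.1
    have h5 : colour H s(u, v) ∈ Subgroup.closure (H \ {x}) :=
      Subgroup.subset_closure ⟨h3, h1.2⟩
    have h6 : v * u⁻¹ ∈ Subgroup.closure (H \ {x}) := by
      rw [labels_iff] at h4
      rcases h4 with h4 | h4
      · have : v * u⁻¹ = colour H s(u, v) := by
          conv_lhs => rw [h4]
          group
        rw [this]; exact h5
      · have : v * u⁻¹ = (colour H s(u, v))⁻¹ := by
          conv_lhs => rw [h4]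
          group
        rw [this]; exact Subgroup.inv_mem _ h5
    have : w * u⁻¹ = (w * v⁻¹) * (v * u⁻¹) := by group
    rw [this]
    exact Subgroup.mul_mem _ h2 h6

theorem no_lonely (hH : IsIrreducibleGeneratingSet H) {v : G} (w : (CayleyGraph H).Walk v v)
    (hw : w.IsCycle) : ∀ e ∈ w.edges, ∃ f ∈ w.edges, f ≠ e ∧ colour H f = colour H e := by
  classical
  intro e he
  by_contra hcon
  push Not at hcon
  set x := colour H e with hx
  let X : SimpleGraph G := SimpleGraph.fromEdgeSet {f | f ∈ w.edges}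
  have htr : ∀ f ∈ w.edges, f ∈ X.edgeSet := by
    intro f hf
    rw [SimpleGraph.edgeSet_fromEdgeSet]
    exact ⟨hf, fun hd => (CayleyGraph H).not_isDiag_of_mem_edgeSet
      (w.edges_subset_edgeSet hf) hd⟩
  have hcyc : (w.transfer X htr).IsCycle := hw.transfer htr
  induction e using Sym2.ind with
  | _ a b =>
    have hmem : s(a, b) ∈ (w.transfer X htr).edges := by
      rw [SimpleGraph.Walk.edges_transfer]; exact he
    have hex := SimpleGraph.adj_and_reachable_delete_edges_iff_exists_cycle.2
      ⟨v, w.transfer X htr, hcyc, hmem⟩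
    obtain ⟨p⟩ := hex.2
    have hp : ∀ f ∈ p.edges, f ∈ (CayleyGraph H).edgeSet ∧ colour H f ≠ x := by
      intro f hf
      have h1 := p.edges_subset_edgeSet hf
      rw [SimpleGraph.edgeSet_deleteEdges, SimpleGraph.edgeSet_fromEdgeSet] at h1
      obtain ⟨⟨h2, h3⟩, h4⟩ := h1
      exact ⟨w.edges_subset_edgeSet h2, hcon f h2 h4⟩
    have h1 := walk_coset x p hp
    have hedge : s(a, b) ∈ (CayleyGraph H).edgeSet := w.edges_subset_edgeSet he
    obtain ⟨h2, h3⟩ := colour_spec hedge
    rw [← hx] at h2 h3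
    apply closure_ne hH h2
    rw [labels_iff] at h3
    rcases h3 with h3 | h3
    · have : x = b * a⁻¹ := by rw [h3]; group
      rw [this]
      rw [this] at h1
      exact h1
    · have : x⁻¹ = b * a⁻¹ := by rw [h3]; group
      rw [← inv_mem_iff, this]
      exact h1

/-- Main fact. -/
theorem main (m : ℕ) : ∃ (V : Type) (_ : Finite V) (X : SimpleGraph V) (C : Type)
    (κ : Sym2 V → C),
    (∀ (v : V) (c : C), {e | e ∈ X.edgeSet ∧ v ∈ e ∧ κ e = c}.encard ≤ 2) ∧
    (∀ (v : V) (w : X.Walk v v), w.IsCycle →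
      ∀ e ∈ w.edges, ∃ f ∈ w.edges, f ≠ e ∧ κ f = κ e) ∧
    (m : ℕ∞) < X.chromaticNumber := by
  obtain ⟨G, _, _, H, -, hH, hm⟩ := result m
  exact ⟨G, inferInstance, CayleyGraph H, G, colour H, fun v c => atMostTwo v c,
    fun v w hw => no_lonely hH w hw, hm⟩

end Pool.Agent.N464.NLC
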